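import Mathlib
import Pool.Agent.VM5.Stmts
import Pool.Agent.Helper69_Weyl.Divisor

/-!
# VM5, module DVB: factorizations of a nonzero integer into four factors
-/

set_option autoImplicit false

namespace Pool.Agent.VM5.H83

/-- the divisors of `m` with both signs -/
noncomputable def sdiv (m : ℤ) : Finset ℤ :=
  (m.natAbs.divisors).image (fun d : ℕ => (d : ℤ)) ∪
    (m.natAbs.divisors).image (fun d : ℕ => -(d : ℤ))

theorem sdiv_card (m : ℤ) : (sdiv m).card ≤ 2 * m.natAbs.divisors.card := by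
  unfold sdiv
  have h1 := Finset.card_union_le ((m.natAbs.divisors).image (fun d : ℕ => (d : ℤ)))
    ((m.natAbs.divisors).image (fun d : ℕ => -(d : ℤ)))
  have h2 := Finset.card_image_le (s := m.natAbs.divisors) (f := fun d : ℕ => (d : ℤ))
  have h3 := Finset.card_image_le (s := m.natAbs.divisors) (f := fun d : ℕ => -(d : ℤ))
  omega

theorem mem_sdiv {m a : ℤ} (hm : m ≠ 0) (h : a ∣ m) : a ∈ sdiv m := by
  unfold sdiv
  have hd : a.natAbs ∈ m.natAbs.divisors := by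
    rw [Nat.mem_divisors]
    exact ⟨Int.natAbs_dvd_natAbs.mpr h, by simpa using hm⟩
  rcases Int.natAbs_eq a with h1 | h1
  · refine Finset.mem_union_left _ ?_
    rw [Finset.mem_image]
    exact ⟨a.natAbs, hd, h1.symm⟩
  · refine Finset.mem_union_right _ ?_
    rw [Finset.mem_image]
    exact ⟨a.natAbs, hd, h1.symm⟩

theorem card_four (m : ℤ) (hm : m ≠ 0) :
    Nat.card {x : ℤ × ℤ × ℤ × ℤ // x.1 * x.2.1 * x.2.2.1 * x.2.2.2 = m} ≤
      (2 * m.natAbs.divisors.card) ^ 3 := by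
  have key : ∀ x : ℤ × ℤ × ℤ × ℤ, x.1 * x.2.1 * x.2.2.1 * x.2.2.2 = m →
      (x.1, x.2.1, x.2.2.1) ∈ sdiv m ×ˢ sdiv m ×ˢ sdiv m := by
    intro x hx
    rw [Finset.mem_product, Finset.mem_product]
    refine ⟨mem_sdiv hm ⟨x.2.1 * x.2.2.1 * x.2.2.2, ?_⟩,
      mem_sdiv hm ⟨x.1 * x.2.2.1 * x.2.2.2, ?_⟩, mem_sdiv hm ⟨x.1 * x.2.1 * x.2.2.2, ?_⟩⟩
    · rw [← hx]; ring
    · rw [← hx]; ring
    · rw [← hx]; ring
  have hle : Nat.card {x : ℤ × ℤ × ℤ × ℤ // x.1 * x.2.1 * x.2.2.1 * x.2.2.2 = m} ≤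
      Nat.card (↥(sdiv m ×ˢ sdiv m ×ˢ sdiv m)) := by
    refine Nat.card_le_card_of_injective
      (fun x : {x : ℤ × ℤ × ℤ × ℤ // x.1 * x.2.1 * x.2.2.1 * x.2.2.2 = m} =>
        (⟨(x.1.1, x.1.2.1, x.1.2.2.1), key x.1 x.2⟩ : ↥(sdiv m ×ˢ sdiv m ×ˢ sdiv m))) ?_
    rintro ⟨⟨a, b, c, d⟩, h1⟩ ⟨⟨a', b', c', d'⟩, h2⟩ h
    simp only [Subtype.mk.injEq, Prod.mk.injEq] at h h1 h2 ⊢
    obtain ⟨ha, hb, hc⟩ := h
    refine ⟨ha, hb, hc, ?_⟩
    subst ha hb hc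
    have hne : a * b * c ≠ 0 := by
      intro h0
      rw [h0, zero_mul] at h1
      exact hm h1.symm
    exact mul_left_cancel₀ hne (h1.trans h2.symm)
  refine hle.trans ?_
  rw [Nat.card_eq_fintype_card, Fintype.card_coe, Finset.card_product, Finset.card_product]
  have hc := sdiv_card m
  calc (sdiv m).card * ((sdiv m).card * (sdiv m).card)
      ≤ (2 * m.natAbs.divisors.card) * ((2 * m.natAbs.divisors.card) *
        (2 * m.natAbs.divisors.card)) :=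
        Nat.mul_le_mul hc (Nat.mul_le_mul hc hc)
    _ = (2 * m.natAbs.divisors.card) ^ 3 := by ring

/-- DVB: the divisor bound, factorizations of a nonzero integer into four factors -/
theorem dvb : DvbStmt := by
  intro ε hε
  obtain ⟨C, hC1, hC⟩ := Pool.Agent.Helper69_Weyl.exists_card_divisors_le (ε / 3) (by positivity)
  refine ⟨8 * C ^ 3, by positivity, ?_⟩
  intro m hm
  have hm' : m.natAbs ≠ 0 := by simpa using hm
  have h1 := card_four m hm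
  have h2 := hC m.natAbs hm'
  have habs : ((m.natAbs : ℕ) : ℝ) = |(m : ℝ)| := by
    rw [Nat.cast_natAbs, Int.cast_abs]
  rw [habs] at h2
  have hpos : 0 ≤ |(m : ℝ)| := abs_nonneg _
  have h3 : ((Nat.card {x : ℤ × ℤ × ℤ × ℤ // x.1 * x.2.1 * x.2.2.1 * x.2.2.2 = m} : ℕ) : ℝ) ≤
      (2 * (m.natAbs.divisors.card : ℝ)) ^ 3 := by
    exact_mod_cast h1
  refine h3.trans ?_
  have h4 : (2 * (m.natAbs.divisors.card : ℝ)) ^ 3 ≤ (2 * (C * |(m : ℝ)| ^ (ε / 3))) ^ 3 := by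
    apply pow_le_pow_left₀ (by positivity)
    linarith
  refine h4.trans (le_of_eq ?_)
  have h5 : (|(m : ℝ)| ^ (ε / 3)) ^ 3 = |(m : ℝ)| ^ ε := by
    rw [← Real.rpow_natCast, ← Real.rpow_mul hpos]
    congr 1
    push_cast
    ring
  calc (2 * (C * |(m : ℝ)| ^ (ε / 3))) ^ 3 = 8 * C ^ 3 * (|(m : ℝ)| ^ (ε / 3)) ^ 3 := by ring
    _ = 8 * C ^ 3 * |(m : ℝ)| ^ ε := by rw [h5]

end Pool.Agent.VM5.H83
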