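import Mathlib
import Pool.Agent.VM5.StmtsB
import Pool.Agent.VM.Ffl

/-!
# VM5, module FFA: the full form of the bound, for all `q`
-/

set_option autoImplicit false

namespace Pool.Agent.VM5.H83

open Pool.Agent.Helper69_Weyl (ee W)

/-- a fraction `a / q` near `t` and a fraction `b / u` near `t`: `1 / U ≤ 1 / q + q / N ^ k` -/
theorem inv_le_of_near (k N q u : ℕ) (a b : ℤ) (t : ℝ) (hN : 1 ≤ N) (hq : 1 ≤ q)
    (hu : 1 ≤ u) (hg : Int.gcd a q = 1)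
    (ht : |t - (a : ℝ) / (q : ℝ)| ≤ 1 / (q : ℝ) ^ 2) :
    1 ≤ ((u : ℝ) * (1 + (N : ℝ) ^ k * |t - (b : ℝ) / (u : ℝ)|)) *
      (1 / (q : ℝ) + (q : ℝ) / (N : ℝ) ^ k) := by
  have hq0 : (0 : ℝ) < (q : ℝ) := by exact_mod_cast hq
  have hu0 : (0 : ℝ) < (u : ℝ) := by exact_mod_cast hu
  have hN0 : (0 : ℝ) < (N : ℝ) := by exact_mod_cast hN
  have hNk : (0 : ℝ) < (N : ℝ) ^ k := by positivity
  obtain ⟨δ, hδ⟩ : ∃ δ : ℝ, δ = |t - (b : ℝ) / (u : ℝ)| := ⟨_, rfl⟩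
  have hδ0 : 0 ≤ δ := by rw [hδ]; exact abs_nonneg _
  rw [← hδ]
  have hexp : ((u : ℝ) * (1 + (N : ℝ) ^ k * δ)) * (1 / (q : ℝ) + (q : ℝ) / (N : ℝ) ^ k) =
      (u : ℝ) / (q : ℝ) + (q : ℝ) * ((u : ℝ) * δ) +
        ((u : ℝ) * ((N : ℝ) ^ k * δ) / (q : ℝ) + (u : ℝ) * ((q : ℝ) / (N : ℝ) ^ k)) := by
    field_simp
    ring
  rw [hexp]
  have hrest : 0 ≤ (u : ℝ) * ((N : ℝ) ^ k * δ) / (q : ℝ) + (u : ℝ) * ((q : ℝ) / (N : ℝ) ^ k) := by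
    positivity
  by_cases h0 : a * (u : ℤ) - b * (q : ℤ) = 0
  · have h1 : (q : ℤ) ∣ a * (u : ℤ) := ⟨b, by linarith⟩
    have hc : IsCoprime (q : ℤ) a := by
      rw [Int.isCoprime_iff_gcd_eq_one, Int.gcd_comm]
      exact hg
    have h2 : (q : ℤ) ∣ (u : ℤ) := hc.dvd_of_dvd_mul_left h1
    have h3 : (q : ℤ) ≤ (u : ℤ) := Int.le_of_dvd (by exact_mod_cast hu) h2
    have h4 : (q : ℝ) ≤ (u : ℝ) := by exact_mod_cast h3
    have h5 : 1 ≤ (u : ℝ) / (q : ℝ) := by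
      rw [le_div_iff₀ hq0]
      linarith
    have h6 : 0 ≤ (q : ℝ) * ((u : ℝ) * δ) := by positivity
    linarith
  · have h1 : (1 : ℝ) ≤ |(a : ℝ) * (u : ℝ) - (b : ℝ) * (q : ℝ)| := by
      have := Int.one_le_abs h0
      exact_mod_cast this
    have h2 : (a : ℝ) / (q : ℝ) - (b : ℝ) / (u : ℝ) =
        ((a : ℝ) * (u : ℝ) - (b : ℝ) * (q : ℝ)) / ((q : ℝ) * (u : ℝ)) := by
      field_simp
    have h3 : 1 / ((q : ℝ) * (u : ℝ)) ≤ |(a : ℝ) / (q : ℝ) - (b : ℝ) / (u : ℝ)| := by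
      rw [h2, abs_div, abs_of_pos (by positivity : (0 : ℝ) < (q : ℝ) * (u : ℝ))]
      gcongr
    have h4 : |(a : ℝ) / (q : ℝ) - (b : ℝ) / (u : ℝ)| ≤ |t - (a : ℝ) / (q : ℝ)| + δ := by
      have : (a : ℝ) / (q : ℝ) - (b : ℝ) / (u : ℝ) =
          -(t - (a : ℝ) / (q : ℝ)) + (t - (b : ℝ) / (u : ℝ)) := by ring
      rw [this, hδ]
      refine (abs_add_le _ _).trans ?_
      rw [abs_neg]
    have h5 : 1 / ((q : ℝ) * (u : ℝ)) ≤ 1 / (q : ℝ) ^ 2 + δ := by linarith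
    have h6 : 1 ≤ (u : ℝ) / (q : ℝ) + (q : ℝ) * ((u : ℝ) * δ) := by
      have := mul_le_mul_of_nonneg_left h5 (by positivity : (0 : ℝ) ≤ (q : ℝ) * (u : ℝ))
      have e1 : (q : ℝ) * (u : ℝ) * (1 / ((q : ℝ) * (u : ℝ))) = 1 := by field_simp
      have e2 : (q : ℝ) * (u : ℝ) * (1 / (q : ℝ) ^ 2 + δ) =
          (u : ℝ) / (q : ℝ) + (q : ℝ) * ((u : ℝ) * δ) := by
        field_simp
      linarith
    linarith

/-- FFA: the full form of the bound, for all `q` -/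
theorem ffa (k : ℕ) (hk : 2 ≤ k) (σ : ℝ) (maj : VM.MajStmt k) (far : VM.WFarStmt k σ) :
    FfaStmt k σ := by
  intro ε hε
  obtain ⟨C₁, hC₁, maj⟩ := maj ε hε
  obtain ⟨C₂, hC₂, far⟩ := far ε hε
  refine ⟨C₁ + C₂, by positivity, ?_⟩
  intro N q a t ξ hN1 hq hg ht
  have hN0 : (0 : ℝ) < (N : ℝ) := by exact_mod_cast hN1
  have hq0 : (0 : ℝ) < (q : ℝ) := by exact_mod_cast hq
  have hk0 : (0 : ℝ) < (k : ℝ) := by
    have : 0 < k := by omega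
    exact_mod_cast this
  have hNk : (0 : ℝ) < (N : ℝ) ^ k := by positivity
  have hA : 0 ≤ (1 / (q : ℝ) + (q : ℝ) / (N : ℝ) ^ k) ^ (1 / (k : ℝ)) := by positivity
  have hB : 0 ≤ (1 / (N : ℝ)) ^ σ := by positivity
  have hNe : 0 < (N : ℝ) ^ (1 + ε) := by positivity
  by_cases hF : VM.Far k N t
  · have h1 := far N t ξ hN1 hF
    have h2 : (N : ℝ) ^ (1 - σ + ε) = (N : ℝ) ^ (1 + ε) * (1 / (N : ℝ)) ^ σ := by
      rw [one_div, Real.inv_rpow hN0.le, ← Real.rpow_neg hN0.le, ← Real.rpow_add hN0]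
      congr 1
      ring
    rw [h2] at h1
    have e1 : 0 ≤ C₁ * (N : ℝ) ^ (1 + ε) * ((1 / (q : ℝ) + (q : ℝ) / (N : ℝ) ^ k) ^ (1 / (k : ℝ)) +
        (1 / (N : ℝ)) ^ σ) := by positivity
    have e2 : 0 ≤ C₂ * (N : ℝ) ^ (1 + ε) *
        (1 / (q : ℝ) + (q : ℝ) / (N : ℝ) ^ k) ^ (1 / (k : ℝ)) := by positivity
    nlinarith
  · unfold VM.Far at hF
    push Not at hF
    obtain ⟨b, u, hu, hb, hU⟩ := hF
    have hu0 : (0 : ℝ) < (u : ℝ) := by exact_mod_cast hu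
    have hinv := inv_le_of_near k N q u a b t hN1 hq hu hg ht
    have hUpos : 0 < (u : ℝ) * (1 + (N : ℝ) ^ k * |t - (b : ℝ) / (u : ℝ)|) := by positivity
    obtain ⟨U, hUdef⟩ : ∃ U : ℝ, U = (u : ℝ) * (1 + (N : ℝ) ^ k * |t - (b : ℝ) / (u : ℝ)|) :=
      ⟨_, rfl⟩
    have h1 := maj N u b t ξ hN1 hu hb (by linarith)
    rw [← hUdef] at h1 hinv hUpos
    have h2 : U ^ (-(1 / (k : ℝ))) ≤ (1 / (q : ℝ) + (q : ℝ) / (N : ℝ) ^ k) ^ (1 / (k : ℝ)) := by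
      rw [Real.rpow_neg hUpos.le, ← Real.inv_rpow hUpos.le]
      apply Real.rpow_le_rpow (by positivity) _ (by positivity)
      rw [inv_le_iff_one_le_mul₀ hUpos]
      linarith
    have e0 : C₁ * (N : ℝ) ^ (1 + ε) * U ^ (-(1 / (k : ℝ))) ≤ C₁ * (N : ℝ) ^ (1 + ε) *
        (1 / (q : ℝ) + (q : ℝ) / (N : ℝ) ^ k) ^ (1 / (k : ℝ)) :=
      mul_le_mul_of_nonneg_left h2 (by positivity)
    have e1 : 0 ≤ C₂ * (N : ℝ) ^ (1 + ε) * ((1 / (q : ℝ) + (q : ℝ) / (N : ℝ) ^ k) ^ (1 / (k : ℝ)) +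
        (1 / (N : ℝ)) ^ σ) := by positivity
    have e2 : 0 ≤ C₁ * (N : ℝ) ^ (1 + ε) * (1 / (N : ℝ)) ^ σ := by positivity
    nlinarith

end Pool.Agent.VM5.H83
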